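import Pool.Agent.Helper462.Iso.Supp

/-!
# MP_1684af_al: isolated points are isolated by minimal pairs, for all algebras of dimension less
than the continuum over a field

The definitions (pp formulas, pure-injective modules, the Ziegler spectrum and its topology) are in
`Pool/Agent/Helper462/Zg/Defs.lean`; `supp`, `IsMinimalFor` and `IsMinimalPair` are in
`Pool/Agent/Helper462/Iso/Supp.lean`. Right `R`-modules are modules over `Rᵐᵒᵖ`.
-/

namespace Pool.Agent.Results.MP_1684af_al.SmallAlgebra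

open Zg ZIso

universe u

/-- **Theorem.** Let `k` be any field (of any cardinality) and `R` any `k`-algebra with
`dim_k R < 2^ℵ₀`, for instance any countably generated algebra over any field. Then every isolated
point `N` of the Ziegler spectrum of right `R`-modules is isolated by a minimal pair. -/
theorem result (k : Type u) [Field k] (R : Type u) [Ring R] [Algebra k R]
    (hdim : Module.rank k R < Cardinal.continuum)
    (N : IndecPureInjective Rᵐᵒᵖ)
    (hN : IsOpen ({zgPoint N} : Set (ZieglerSpectrum Rᵐᵒᵖ))) :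
    ∃ φ ψ : PPFormula Rᵐᵒᵖ, basicSet φ ψ = {zgPoint N} ∧ IsMinimalPair φ ψ ∧
      (∀ (M : Type u) [AddCommGroup M] [Module Rᵐᵒᵖ M], supp Rᵐᵒᵖ M = Set.univ →
        IsMinimalFor M φ ψ) ∧
      ∃ (M : Type u) (_ : AddCommGroup M) (_ : Module Rᵐᵒᵖ M), supp Rᵐᵒᵖ M = Set.univ ∧
        IsMinimalFor M φ ψ := by
  have hdim' : Module.rank k Rᵐᵒᵖ < Cardinal.continuum := by
    rw [← (MulOpposite.opLinearEquiv k : R ≃ₗ[k] Rᵐᵒᵖ).rank_eq]
    exact hdim
  obtain ⟨φ, ψ, h1, h2, h3, h4⟩ := exists_minimal k hdim' N hN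
  have hmin : IsMinimalPair φ ψ := ⟨h2, h3, h4⟩
  obtain ⟨M, i1, i2, hM⟩ := exists_full Rᵐᵒᵖ
  exact ⟨φ, ψ, h1, hmin, fun M _ _ hM => hmin.isMinimalFor k M hM, M, i1, i2, hM,
    hmin.isMinimalFor k M hM⟩

end Pool.Agent.Results.MP_1684af_al.SmallAlgebra
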